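import Pool.Agent.E8helper17.PQ.OmSeq

set_option autoImplicit false
set_option linter.all false

namespace Pool.Agent.Results.MP_0eabd7_lc.IntervalAlgebraH17

open Pool.Agent.E8helper17.PQ (PropertyP HasCardinalSequence)

/-- There is a Boolean algebra with property (P) whose cardinal sequence is `⟨ℵ₁, ℵ₁, …, 1⟩` of
length `ω₁` (the interval algebra of `ω₁`, that is the algebra of clopen subsets of `ω₁ + 1`). -/
theorem result : ∃ (B : Type) (_ : BooleanAlgebra B), PropertyP B ∧
    HasCardinalSequence B (Cardinal.aleph 1) (Ordinal.omega 1) :=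
  Pool.Agent.E8helper17.PQ.q1

end Pool.Agent.Results.MP_0eabd7_lc.IntervalAlgebraH17
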